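import Mathlib

namespace Pool.Agent.Results.MP_8766ea_co.Counter

open Finset

open scoped Classical in
/-- The distances from `p` to the other points of `C`, in non-decreasing order. -/
noncomputable def row (C : Finset (EuclideanSpace ℝ (Fin 2))) (p : EuclideanSpace ℝ (Fin 2)) :
    List ℝ :=
  ((C.erase p).val.map (dist p)).sort (· ≤ ·)

/-- The multiset of the rows of all points of `C`. -/
noncomputable def PDD (C : Finset (EuclideanSpace ℝ (Fin 2))) : Multiset (List ℝ) :=
  C.val.map (row C)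

abbrev E := EuclideanSpace ℝ (Fin 2)

def q (a b : ℤ × ℤ) : ℤ :=
  (a.1 - b.1) ^ 2 + (a.1 - b.1) * (a.2 - b.2) + (a.2 - b.2) ^ 2

noncomputable def pt (a : ℤ × ℤ) : E :=
  WithLp.toLp 2 ![(a.1 : ℝ) + (a.2 : ℝ) / 2, (a.2 : ℝ) * Real.sqrt 3 / 2]

lemma dist_pt (a b : ℤ × ℤ) : dist (pt a) (pt b) = Real.sqrt (q a b : ℝ) := by
  rw [EuclideanSpace.dist_eq]
  congr 1
  have h3 : Real.sqrt 3 ^ 2 = 3 := Real.sq_sqrt (by norm_num)
  simp only [pt, q, Real.dist_eq, sq_abs, Fin.sum_univ_two, Matrix.cons_val_zero,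
    Matrix.cons_val_one]
  push_cast
  linear_combination ((a.2 : ℝ) - b.2) ^ 2 / 4 * h3

lemma q_nonneg (a b : ℤ × ℤ) : 0 ≤ q a b := by
  unfold q; nlinarith [sq_nonneg (a.1 - b.1), sq_nonneg (a.2 - b.2),
    sq_nonneg (a.1 - b.1 + (a.2 - b.2))]

lemma q_eq {a b c d : ℤ × ℤ} (h : dist (pt a) (pt b) = dist (pt c) (pt d)) : q a b = q c d := by
  rw [dist_pt, dist_pt, Real.sqrt_inj (by exact_mod_cast q_nonneg a b)
    (by exact_mod_cast q_nonneg c d)] at h
  exact_mod_cast h

def A : Fin 10 → ℤ × ℤ := ![(0,0),(3,0),(2,1),(0,2),(3,2),(4,2),(0,3),(1,3),(3,3),(4,4)]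
def B : Fin 10 → ℤ × ℤ := ![(4,4),(4,1),(1,2),(2,0),(2,3),(2,4),(1,4),(3,1),(1,1),(0,0)]

lemma inj_of (X : Fin 10 → ℤ × ℤ) (h : ∀ i j, q (X i) (X j) = 0 → i = j) :
    Function.Injective fun i => pt (X i) := by
  intro i j hij
  apply h
  have h1 : dist (pt (X i)) (pt (X j)) = dist (pt (X i)) (pt (X i)) := by
    simp only at hij; rw [hij]
  rw [q_eq h1]; simp [q]

lemma injA : Function.Injective fun i => pt (A i) := inj_of A (by decide +kernel)
lemma injB : Function.Injective fun i => pt (B i) := inj_of B (by decide +kernel)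

open scoped Classical in
lemma PDD_eq (X : Fin 10 → ℤ × ℤ) (h : Function.Injective fun i => pt (X i)) :
    PDD (univ.image fun i => pt (X i)) = (univ : Finset (Fin 10)).val.map fun i =>
      (((univ.erase i).val.map fun j => q (X i) (X j)).map
        fun z : ℤ => Real.sqrt (z : ℝ)).sort (· ≤ ·) := by
  unfold PDD
  rw [image_val_of_injOn h.injOn, Multiset.map_map]
  refine Multiset.map_congr rfl fun i _ => ?_
  simp only [Function.comp, row]
  have e : (univ.image fun i => pt (X i)).erase (pt (X i)) =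
      (univ.erase i).image fun i => pt (X i) := (image_erase h univ i).symm
  congr 1
  rw [e, image_val_of_injOn h.injOn, Multiset.map_map, Multiset.map_map]
  exact Multiset.map_congr rfl fun j _ => dist_pt _ _

lemma rows : ∀ i : Fin 10, ((univ.erase i).val.map fun j => q (A i) (A j)) =
    ((univ.erase i).val.map fun j => q (B i) (B j)) := by decide +kernel

lemma noquad : ∀ a b : Fin 10, q (B a) (B b) = q (A 0) (A 1) → ∀ c : Fin 10,
    q (B a) (B c) = q (A 0) (A 2) → q (B b) (B c) = q (A 1) (A 2) → ∀ d : Fin 10,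
    q (B a) (B d) = q (A 0) (A 5) → q (B b) (B d) = q (A 1) (A 5) →
    q (B c) (B d) ≠ q (A 2) (A 5) := by decide +kernel

theorem result :
    ¬ ∀ (m : ℕ), 2 ≤ m → ∀ C C' : Finset (EuclideanSpace ℝ (Fin 2)),
      C.card = m → C'.card = m → PDD C = PDD C' →
      ∃ f : EuclideanSpace ℝ (Fin 2) ≃ᵢ EuclideanSpace ℝ (Fin 2),
        f '' (C : Set (EuclideanSpace ℝ (Fin 2))) = (C' : Set (EuclideanSpace ℝ (Fin 2))) := by
  classical
  intro h
  obtain ⟨f, hf⟩ := h 10 (by norm_num) (univ.image fun i => pt (A i))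
    (univ.image fun i => pt (B i))
    (by rw [card_image_of_injective _ injA]; simp)
    (by rw [card_image_of_injective _ injB]; simp)
    (by
      have h1 := PDD_eq A injA
      have h2 := PDD_eq B injB
      simp only [rows] at h1
      convert h1.trans h2.symm)
  have hs : ∀ i, ∃ a, pt (B a) = f (pt (A i)) := by
    intro i
    have : f (pt (A i)) ∈ ((univ.image fun i => pt (B i) : Finset E) : Set E) := by
      rw [← hf]
      exact ⟨_, by simp, rfl⟩
    simpa using this
  choose s hs using hs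
  have hq : ∀ i j, q (B (s i)) (B (s j)) = q (A i) (A j) := by
    intro i j
    apply q_eq
    rw [hs, hs, f.dist_eq]
  exact noquad (s 0) (s 1) (hq 0 1) (s 2) (hq 0 2) (hq 1 2) (s 5) (hq 0 5) (hq 1 5) (hq 2 5)

end Pool.Agent.Results.MP_8766ea_co.Counter
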